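import Mathlib

/-! A double integral which can be evaluated in closed form. -/

open Finset MeasureTheory intervalIntegral

namespace Y426.HC

noncomputable def al (k : ℕ) : ℝ := ∏ i ∈ range k, (2 * (i : ℝ) + 2) / (2 * i + 3)

noncomputable def be (k : ℕ) : ℝ := ∏ i ∈ range k, (2 * (i : ℝ) + 1) / (2 * i + 2)

theorem al_pos (k : ℕ) : 0 < al k := Finset.prod_pos fun i _ => by positivity

theorem al_succ (k : ℕ) : al (k + 1) = al k * ((2 * k + 2) / (2 * k + 3)) := prod_range_succ _ _

theorem be_succ (k : ℕ) : be (k + 1) = be k * ((2 * k + 1) / (2 * k + 2)) := prod_range_succ _ _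

theorem al_mul_be (k : ℕ) : al k * be k = 1 / (2 * k + 1) := by
  induction k with
  | zero => simp [al, be]
  | succ k ih =>
    rw [al_succ, be_succ]
    have h : al k * (((2 * k + 2) / (2 * k + 3) : ℝ)) * (be k * ((2 * k + 1) / (2 * k + 2)))
      = al k * be k * ((2 * k + 1) / (2 * k + 3)) := by field_simp
    rw [h, ih]
    push_cast
    field_simp
    ring

theorem al_sq (k : ℕ) : al k ^ 2 = Real.Wallis.W k / (2 * k + 1) := by
  induction k with
  | zero => simp [al, Real.Wallis.W]
  | succ k ih =>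
    rw [al_succ, Real.Wallis.W_succ, mul_pow, ih]
    push_cast
    field_simp
    ring

theorem int_t (k : ℕ) : ∫ t in (0 : ℝ)..1, (4 * t * (1 - t)) ^ k = al k := by
  have h := integral_comp_mul_deriv (a := 0) (b := Real.pi) (f := fun x => (1 - Real.cos x) / 2)
    (f' := fun x => Real.sin x / 2) (g := fun t => (4 * t * (1 - t)) ^ k)
    (fun x _ => by
      have := ((Real.hasDerivAt_cos x).const_sub 1).div_const 2
      simpa using this)
    (by fun_prop) (by fun_prop)
  simp only [Real.cos_zero, Real.cos_pi, sub_self, zero_div] at h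
  rw [show ((1 : ℝ) - -1) / 2 = 1 by norm_num] at h
  rw [← h]
  have e : ∀ x : ℝ, ((fun t : ℝ => (4 * t * (1 - t)) ^ k) ∘ fun x => (1 - Real.cos x) / 2) x *
      (Real.sin x / 2) = 1 / 2 * Real.sin x ^ (2 * k + 1) := by
    intro x
    simp only [Function.comp]
    have h1 : 4 * ((1 - Real.cos x) / 2) * (1 - (1 - Real.cos x) / 2) = Real.sin x ^ 2 := by
      rw [Real.sin_sq]; ring
    rw [h1, ← pow_mul, pow_succ]
    ring
  simp_rw [e]
  rw [intervalIntegral.integral_const_mul, integral_sin_pow_odd, al]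
  ring

theorem int_l (k : ℕ) : ∫ x in (0 : ℝ)..(2 * Real.pi), Real.sin (x / 2) ^ (2 * k)
    = 2 * Real.pi * be k := by
  have h := intervalIntegral.integral_comp_div (a := 0) (b := 2 * Real.pi)
    (fun x => Real.sin x ^ (2 * k)) (c := 2) (by norm_num)
  rw [h, zero_div, show 2 * Real.pi / 2 = Real.pi by ring, integral_sin_pow_even, smul_eq_mul, be]
  ring

/-- The kernel. -/
noncomputable def ker (m : ℕ) (t : ℝ) : ℝ :=
  1 / (2 * Real.pi) * ∫ x in (0 : ℝ)..(2 * Real.pi), (1 - 4 * t * (1 - t) * Real.sin (x / 2) ^ 2) ^ m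

theorem ker_eq (m : ℕ) (t : ℝ) : ker m t
    = ∑ k ∈ range (m + 1), (m.choose k : ℝ) * (-1) ^ k * be k * (4 * t * (1 - t)) ^ k := by
  unfold ker
  have e : ∀ x : ℝ, (1 - 4 * t * (1 - t) * Real.sin (x / 2) ^ 2) ^ m
      = ∑ k ∈ range (m + 1), ((m.choose k : ℝ) * (-1) ^ k * (4 * t * (1 - t)) ^ k) *
        Real.sin (x / 2) ^ (2 * k) := by
    intro x
    rw [show (1 - 4 * t * (1 - t) * Real.sin (x / 2) ^ 2)
      = -(4 * t * (1 - t) * Real.sin (x / 2) ^ 2) + 1 by ring, add_pow]
    apply Finset.sum_congr rfl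
    intro k _
    rw [one_pow, neg_pow, mul_pow, ← pow_mul]
    ring
  simp_rw [e]
  rw [intervalIntegral.integral_finsetSum]
  · rw [Finset.mul_sum]
    apply Finset.sum_congr rfl
    intro k _
    rw [intervalIntegral.integral_const_mul, int_l]
    have := Real.pi_pos
    field_simp
  · intro k _
    apply Continuous.intervalIntegrable
    fun_prop

theorem continuous_ker (m : ℕ) : Continuous (ker m) := by
  have : ker m = fun t => ∑ k ∈ range (m + 1), (m.choose k : ℝ) * (-1) ^ k * be k *
      (4 * t * (1 - t)) ^ k := funext fun t => ker_eq m t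
  rw [this]
  fun_prop

theorem int_sq (k : ℕ) : ∫ t in (0 : ℝ)..1, (2 * t - 1) ^ (2 * k) = 1 / (2 * k + 1) := by
  have h := intervalIntegral.integral_comp_mul_sub (a := 0) (b := 1)
    (fun x : ℝ => x ^ (2 * k)) (c := 2) (by norm_num) 1
  rw [h]
  rw [integral_pow]
  norm_num
  rw [show (2 * k + 1) = 2 * k + 1 from rfl, pow_succ, pow_mul]
  norm_num
  field_simp
  try norm_num

theorem sum_choose (m : ℕ) :
    ∑ k ∈ range (m + 1), (m.choose k : ℝ) * (-1) ^ k * (1 / (2 * k + 1)) = al m := by
  rw [← int_t m]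
  have e : ∀ t : ℝ, (4 * t * (1 - t)) ^ m
      = ∑ k ∈ range (m + 1), ((m.choose k : ℝ) * (-1) ^ k) * (2 * t - 1) ^ (2 * k) := by
    intro t
    rw [show 4 * t * (1 - t) = -((2 * t - 1) ^ 2) + 1 by ring, add_pow]
    apply Finset.sum_congr rfl
    intro k _
    rw [one_pow, neg_pow, ← pow_mul]
    ring
  simp_rw [e]
  rw [intervalIntegral.integral_finsetSum]
  · apply Finset.sum_congr rfl
    intro k _
    rw [intervalIntegral.integral_const_mul, int_sq]
  · intro k _
    apply Continuous.intervalIntegrable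
    fun_prop

theorem int_ker (m : ℕ) : ∫ t in (0 : ℝ)..1, ker m t = al m := by
  simp_rw [ker_eq]
  rw [intervalIntegral.integral_finsetSum]
  · rw [← sum_choose]
    apply Finset.sum_congr rfl
    intro k _
    rw [intervalIntegral.integral_const_mul, int_t, ← al_mul_be]
    ring
  · intro k _
    apply Continuous.intervalIntegrable
    fun_prop

end Y426.HC
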