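import Mathlib
import Pool.Agent.Results.MP_c14f63_co.OrderOfGrowth
import Pool.Agent.Y426.HC.Kernel

/-! The first absolute moment of the noise score: a sharp bound through a Fourier integral. -/

open Finset MeasureTheory

namespace Y426.HC

open Pool.Agent.Results.MP_c14f63_co.OrderOfGrowth (Vert W wt xi flip_ne flip_same flip_flip
  flipPerm xi_sq W_nonneg wt_nonneg wt_mul_xi)

variable {n : ℕ}

open Pool.Agent.Results.MP_c14f63_co.OrderOfGrowth renaming flip → flp

/-- The signed size of a set of coordinates. -/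
def sgs (ε : Fin n → ℤ) (K : Vert n) : ℤ := ∑ i, if K i then ε i else 0

theorem sgs_flip (ε : Fin n → ℤ) (K : Vert n) (i : Fin n) (h : K i = false) :
    sgs ε (flp K i) = sgs ε K + ε i := by
  unfold sgs
  rw [← Finset.add_sum_erase univ _ (mem_univ i),
    ← Finset.add_sum_erase univ (fun i => if K i then ε i else 0) (mem_univ i)]
  have e : ∑ j ∈ univ.erase i, (if flp K i j then ε j else 0)
      = ∑ j ∈ univ.erase i, (if K j then ε j else 0) := by
    apply Finset.sum_congr rfl
    intro j hj
    rw [flip_ne K (Finset.ne_of_mem_erase hj)]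
  rw [e, flip_same, h]
  simp
  ring

/-- The weight without the coordinate `i`, on the sets not containing `i`. -/
noncomputable def Wi (i : Fin n) (K : Vert n) (t : ℝ) : ℝ :=
  ∏ j, if j = i then (if K j then 0 else 1) else wt (K j) t

/-- The probability that the signed size without `i` is `k`. -/
noncomputable def Pr (ε : Fin n → ℤ) (i : Fin n) (k : ℤ) (t : ℝ) : ℝ :=
  ∑ K : Vert n, Wi i K t * (if sgs ε K = k then 1 else 0)

theorem Wi_nonneg (i : Fin n) (K : Vert n) {t : ℝ} (h0 : 0 ≤ t) (h1 : t ≤ 1) : 0 ≤ Wi i K t := by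
  apply Finset.prod_nonneg
  intro j _
  split_ifs
  · exact le_rfl
  · exact zero_le_one
  · exact wt_nonneg _ h0 h1

theorem Wi_true (i : Fin n) (K : Vert n) (t : ℝ) (h : K i = true) : Wi i K t = 0 := by
  apply Finset.prod_eq_zero (mem_univ i)
  simp [h]

theorem Wi_false (i : Fin n) (K : Vert n) (t : ℝ) (h : K i = false) :
    Wi i K t = ∏ j ∈ univ.erase i, wt (K j) t := by
  unfold Wi
  rw [← Finset.mul_prod_erase univ _ (mem_univ i)]
  simp only [if_true, h, Bool.false_eq_true, if_false, one_mul]
  apply Finset.prod_congr rfl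
  intro j hj
  rw [if_neg (Finset.ne_of_mem_erase hj)]

theorem sum_pair (i : Fin n) (f : Vert n → ℝ) :
    ∑ K : Vert n, f K = ∑ K : Vert n, if K i then 0 else f K + f (flp K i) := by
  have h1 : ∑ K : Vert n, f K = ∑ K : Vert n, (if K i then 0 else f K)
      + ∑ K : Vert n, (if K i then f K else 0) := by
    rw [← Finset.sum_add_distrib]
    apply Finset.sum_congr rfl
    intro K _
    split_ifs <;> simp
  have h2 : ∑ K : Vert n, (if K i then f K else 0)
      = ∑ K : Vert n, (if K i then 0 else f (flp K i)) := by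
    rw [← Equiv.sum_comp (flipPerm i) (fun K : Vert n => if K i then f K else 0)]
    apply Finset.sum_congr rfl
    intro K _
    show (if flp K i i then f (flp K i) else 0) = _
    rw [flip_same]
    cases K i <;> simp
  rw [h1, h2, ← Finset.sum_add_distrib]
  apply Finset.sum_congr rfl
  intro K _
  split_ifs <;> simp

theorem sum_xi (i : Fin n) {t : ℝ} (h0 : 0 < t) (h1 : t < 1) (g : Vert n → ℝ) :
    ∑ K : Vert n, W K t * xi (K i) t * g K
      = ∑ K : Vert n, Wi i K t * (g (flp K i) - g K) := by
  have hW : ∀ K : Vert n, W K t * xi (K i) t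
      = (if K i then 1 else -1) * ∏ j ∈ univ.erase i, wt (K j) t := by
    intro K
    have e : W K t = wt (K i) t * ∏ j ∈ univ.erase i, wt (K j) t :=
      (Finset.mul_prod_erase univ (fun j => wt (K j) t) (mem_univ i)).symm
    have a := wt_mul_xi (K i) h0 h1
    rw [e, mul_right_comm, a]
  rw [sum_pair i]
  apply Finset.sum_congr rfl
  intro K _
  cases hK : K i
  · simp only [Bool.false_eq_true, if_false]
    rw [Wi_false i K t hK, ← hK, hW K, hW (flp K i), flip_same, hK]
    have e2 : ∏ j ∈ univ.erase i, wt (flp K i j) t = ∏ j ∈ univ.erase i, wt (K j) t := by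
      apply Finset.prod_congr rfl
      intro j hj
      rw [flip_ne K (Finset.ne_of_mem_erase hj)]
    rw [e2]
    simp
    ring
  · simp only [if_true]
    rw [Wi_true i K t hK, zero_mul]

theorem first_sharp (ε : Fin n → ℤ) (hε : ∀ i, ε i = 1 ∨ ε i = -1) {t : ℝ} (h0 : 0 < t)
    (h1 : t < 1) {b : ℝ} (hb : ∀ i k, Pr ε i k t ≤ b) :
    ∑ K : Vert n, W K t * |∑ i, xi (K i) t * (ε i : ℝ)| ≤ 2 * n * b := by
  have ht : 0 < t * (1 - t) := mul_pos h0 (by linarith)
  set e : ℤ := ∑ i, ε i with he
  -- the score in terms of the signed size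
  have hX : ∀ K : Vert n, ∑ i, xi (K i) t * (ε i : ℝ)
      = ((sgs ε K : ℝ) - t * e) / (t * (1 - t)) := by
    intro K
    have h2 : ∀ i, xi (K i) t * (ε i : ℝ)
        = (((if K i then ε i else 0 : ℤ) : ℝ) - t * ε i) / (t * (1 - t)) := by
      intro i
      have h3 : (1 - t) ≠ 0 := by linarith
      cases K i
      · simp only [xi, Bool.false_eq_true, if_false]
        push_cast
        field_simp
        ring
      · simp only [xi, if_true]
        field_simp
    rw [Finset.sum_congr rfl fun i _ => h2 i, ← Finset.sum_div, Finset.sum_sub_distrib,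
      ← Finset.mul_sum, sgs, he]
    push_cast
    rfl
  set g : Vert n → ℝ := fun K => if t * (e : ℝ) ≤ sgs ε K then 1 else -1 with hg
  have habs : ∀ K : Vert n, |∑ i, xi (K i) t * (ε i : ℝ)| = (∑ i, xi (K i) t * (ε i : ℝ)) * g K := by
    intro K
    rw [hX K]
    simp only [hg]
    split_ifs with h
    · rw [mul_one, abs_of_nonneg]
      exact div_nonneg (by linarith) ht.le
    · rw [mul_neg_one, abs_of_nonpos]
      push Not at h
      exact div_nonpos_of_nonpos_of_nonneg (by linarith) ht.le
  have hsum : ∑ K : Vert n, W K t * |∑ i, xi (K i) t * (ε i : ℝ)|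
      = ∑ i, (ε i : ℝ) * ∑ K : Vert n, W K t * xi (K i) t * g K := by
    rw [Finset.sum_congr rfl fun K _ => by rw [habs K]]
    have e2 : ∀ K : Vert n, W K t * ((∑ i, xi (K i) t * (ε i : ℝ)) * g K)
        = ∑ i, (ε i : ℝ) * (W K t * xi (K i) t * g K) := by
      intro K
      rw [Finset.sum_mul, Finset.mul_sum]
      apply Finset.sum_congr rfl
      intro i _
      ring
    rw [Finset.sum_congr rfl fun K _ => e2 K, Finset.sum_comm]
    apply Finset.sum_congr rfl
    intro i _
    rw [Finset.mul_sum]
  rw [hsum]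
  have hterm : ∀ i, (ε i : ℝ) * ∑ K : Vert n, W K t * xi (K i) t * g K ≤ 2 * b := by
    intro i
    rw [sum_xi i h0 h1, Finset.mul_sum]
    set k : ℤ := if ε i = 1 then ⌈t * (e : ℝ)⌉ - 1 else ⌈t * (e : ℝ)⌉ with hk
    have hpt : ∀ K : Vert n, (ε i : ℝ) * (Wi i K t * (g (flp K i) - g K))
        ≤ 2 * (Wi i K t * (if sgs ε K = k then 1 else 0)) := by
      intro K
      have hWi := Wi_nonneg i K h0.le h1.le
      cases hK : K i
      · have hfl := sgs_flip ε K i hK
        have key : (ε i : ℝ) * (g (flp K i) - g K) ≤ 2 * (if sgs ε K = k then 1 else 0) := by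
          simp only [hg]
          rw [hfl]
          have c1 : ∀ z : ℤ, (t * (e : ℝ) ≤ (z : ℝ)) ↔ ⌈t * (e : ℝ)⌉ ≤ z := fun z =>
            Int.ceil_le.symm
          rw [if_congr (c1 (sgs ε K + ε i)) rfl rfl, if_congr (c1 (sgs ε K)) rfl rfl]
          rcases hε i with h | h
          · rw [h] at hk ⊢
            rw [if_pos rfl] at hk
            rw [hk]
            split_ifs with a1 a2 a3 <;> (try norm_num) <;> (exfalso; omega)
          · rw [h] at hk ⊢
            rw [if_neg (by norm_num)] at hk
            rw [hk]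
            split_ifs with a1 a2 a3 <;> (try norm_num) <;> (exfalso; omega)
        calc (ε i : ℝ) * (Wi i K t * (g (flp K i) - g K))
            = Wi i K t * ((ε i : ℝ) * (g (flp K i) - g K)) := by ring
          _ ≤ Wi i K t * (2 * (if sgs ε K = k then 1 else 0)) :=
              mul_le_mul_of_nonneg_left key hWi
          _ = _ := by ring
      · rw [Wi_true i K t hK]
        simp
    calc ∑ K : Vert n, (ε i : ℝ) * (Wi i K t * (g (flp K i) - g K))
        ≤ ∑ K : Vert n, 2 * (Wi i K t * (if sgs ε K = k then 1 else 0)) :=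
          Finset.sum_le_sum fun K _ => hpt K
      _ = 2 * Pr ε i k t := by rw [Pr, Finset.mul_sum]
      _ ≤ 2 * b := by linarith [hb i k]
  calc ∑ i, (ε i : ℝ) * ∑ K : Vert n, W K t * xi (K i) t * g K ≤ ∑ i : Fin n, 2 * b :=
        Finset.sum_le_sum fun i _ => hterm i
    _ = 2 * n * b := by
        rw [Finset.sum_const, Finset.card_univ, Fintype.card_fin, nsmul_eq_mul]
        ring

/-! ### The Fourier bound for the probabilities -/

theorem int_cos (k : ℤ) : ∫ x in (0 : ℝ)..(2 * Real.pi), Real.cos (x * k)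
    = if k = 0 then 2 * Real.pi else 0 := by
  split_ifs with h
  · subst h; simp
  · have hk : (k : ℝ) ≠ 0 := by exact_mod_cast h
    rw [intervalIntegral.integral_comp_mul_right (fun x => Real.cos x) hk, integral_cos, zero_mul,
      Real.sin_zero, sub_zero]
    have : Real.sin (2 * Real.pi * k) = 0 := by
      have := Real.sin_int_mul_pi (2 * k)
      push_cast at this
      rw [← this]
      ring_nf
    rw [this, smul_zero]

/-- The common modulus of the factors. -/
noncomputable def rho (t x : ℝ) : ℝ := Real.sqrt (1 - 4 * t * (1 - t) * Real.sin (x / 2) ^ 2)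

theorem norm_factor (t x : ℝ) {e : ℤ} (he : e = 1 ∨ e = -1) :
    ‖((1 - t : ℝ) : ℂ) + (t : ℝ) * Complex.exp (x * e * Complex.I)‖ = rho t x := by
  have h1 : Complex.exp (x * e * Complex.I) = ((Real.cos (x * e) : ℝ) : ℂ)
      + ((Real.sin (x * e) : ℝ) : ℂ) * Complex.I := by
    rw [Complex.exp_mul_I]
    push_cast
    rfl
  rw [h1]
  have h2 : (((1 - t : ℝ) : ℂ) + (t : ℝ) * (((Real.cos (x * e) : ℝ) : ℂ)
      + ((Real.sin (x * e) : ℝ) : ℂ) * Complex.I))
      = (((1 - t) + t * Real.cos (x * e) : ℝ) : ℂ) + ((t * Real.sin (x * e) : ℝ) : ℂ) * Complex.I := by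
    push_cast
    ring
  rw [h2, Complex.norm_add_mul_I, rho]
  congr 1
  have hc : Real.cos (x * e) = Real.cos x := by
    rcases he with h | h <;> subst h <;> simp
  have hs : Real.sin (x * e) ^ 2 = Real.sin x ^ 2 := by
    rcases he with h | h <;> subst h <;> simp
  have h3 : ((1 - t) + t * Real.cos (x * e)) ^ 2 + (t * Real.sin (x * e)) ^ 2
      = (1 - t) ^ 2 + 2 * t * (1 - t) * Real.cos (x * e)
        + t ^ 2 * (Real.sin (x * e) ^ 2 + Real.cos (x * e) ^ 2) := by ring
  rw [h3, Real.sin_sq_add_cos_sq, hc]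
  have h4 : Real.cos x = 1 - 2 * Real.sin (x / 2) ^ 2 := by
    have := Real.cos_two_mul (x / 2)
    rw [show 2 * (x / 2) = x by ring] at this
    rw [this, Real.sin_sq]
    ring
  rw [h4]
  ring

theorem Pr_le (ε : Fin n → ℤ) (hε : ∀ i, ε i = 1 ∨ ε i = -1) (i : Fin n) (k : ℤ) (t : ℝ) :
    Pr ε i k t ≤ 1 / (2 * Real.pi) * ∫ x in (0 : ℝ)..(2 * Real.pi), rho t x ^ (n - 1) := by
  have hpi := Real.pi_pos
  have h1 : Pr ε i k t = 1 / (2 * Real.pi) * ∫ x in (0 : ℝ)..(2 * Real.pi),
      ∑ K : Vert n, Wi i K t * Real.cos (x * ((sgs ε K - k : ℤ) : ℝ)) := by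
    rw [intervalIntegral.integral_finsetSum]
    · rw [Pr, Finset.mul_sum]
      apply Finset.sum_congr rfl
      intro K _
      rw [intervalIntegral.integral_const_mul, int_cos]
      by_cases h : sgs ε K = k
      · rw [if_pos h, if_pos (by omega)]; field_simp
      · rw [if_neg h, if_neg (by omega)]; ring
    · intro K _
      apply Continuous.intervalIntegrable
      fun_prop
  rw [h1]
  apply mul_le_mul_of_nonneg_left _ (by positivity)
  apply intervalIntegral.integral_mono_on (by positivity)
  · apply Continuous.intervalIntegrable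
    fun_prop
  · apply Continuous.intervalIntegrable
    unfold rho
    fun_prop
  · intro x _
    have h2 : ∑ K : Vert n, Wi i K t * Real.cos (x * ((sgs ε K - k : ℤ) : ℝ))
        = (∑ K : Vert n, (Wi i K t : ℂ) * Complex.exp (x * ((sgs ε K - k : ℤ) : ℝ) * Complex.I)).re := by
      rw [Complex.re_sum]
      apply Finset.sum_congr rfl
      intro K _
      rw [Complex.re_ofReal_mul]
      congr 1
      have := Complex.exp_ofReal_mul_I_re (x * ((sgs ε K - k : ℤ) : ℝ))
      rw [← this]
      push_cast
      rfl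
    have h3 : ∑ K : Vert n, (Wi i K t : ℂ) * Complex.exp (x * ((sgs ε K - k : ℤ) : ℝ) * Complex.I)
        = Complex.exp (-(x * k : ℝ) * Complex.I) * ∏ j, ∑ b ∈ (univ : Finset Bool),
          (((if j = i then (if b then 0 else 1) else wt b t : ℝ) : ℂ) *
            Complex.exp (x * ((if b then ε j else 0 : ℤ) : ℝ) * Complex.I)) := by
      rw [Finset.prod_univ_sum, Fintype.piFinset_univ, Finset.mul_sum]
      apply Finset.sum_congr rfl
      intro K _
      rw [Finset.prod_mul_distrib, ← Complex.exp_sum, Wi]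
      push_cast
      rw [mul_left_comm, ← Complex.exp_add]
      congr 2
      have h8 : ∑ j, (x : ℂ) * ((if K j = true then ε j else 0 : ℤ) : ℂ) * Complex.I
          = x * ((sgs ε K : ℤ) : ℂ) * Complex.I := by
        rw [← Finset.sum_mul, ← Finset.mul_sum, sgs]
        push_cast
        rfl
      have h9 : ∀ j, (((if K j = true then ε j else 0 : ℤ) : ℝ) : ℂ)
          = ((if K j = true then ε j else 0 : ℤ) : ℂ) := fun j => by norm_cast
      push_cast at h8 h9 ⊢
      first
        | (rw [Finset.sum_congr rfl fun j _ => by rw [h9 j], h8]; ring)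
        | (rw [h8]; ring)
        | (simp only [h9] at *; rw [h8]; ring)
    have h4 : ‖∏ j, ∑ b ∈ (univ : Finset Bool),
          (((if j = i then (if b then 0 else 1) else wt b t : ℝ) : ℂ) *
            Complex.exp (x * ((if b then ε j else 0 : ℤ) : ℝ) * Complex.I))‖ = rho t x ^ (n - 1) := by
      rw [norm_prod, ← Finset.mul_prod_erase univ _ (mem_univ i)]
      have h5 : ‖∑ b ∈ (univ : Finset Bool),
          (((if i = i then (if b then 0 else 1) else wt b t : ℝ) : ℂ) *
            Complex.exp (x * ((if b then ε i else 0 : ℤ) : ℝ) * Complex.I))‖ = 1 := by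
        simp
      rw [h5, one_mul]
      have h6 : ∀ j ∈ univ.erase i, ‖∑ b ∈ (univ : Finset Bool),
          (((if j = i then (if b then 0 else 1) else wt b t : ℝ) : ℂ) *
            Complex.exp (x * ((if b then ε j else 0 : ℤ) : ℝ) * Complex.I))‖ = rho t x := by
        intro j hj
        rw [← norm_factor t x (hε j)]
        congr 1
        simp only [if_neg (Finset.ne_of_mem_erase hj), Fintype.sum_bool, wt]
        simp
        ring
      rw [Finset.prod_congr rfl h6, Finset.prod_const, Finset.card_erase_of_mem (mem_univ i),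
        Finset.card_univ, Fintype.card_fin]
    rw [h2]
    refine le_trans (Complex.re_le_norm _) ?_
    rw [h3, norm_mul, h4]
    have h7 : ‖Complex.exp (-(x * k : ℝ) * Complex.I)‖ = 1 := by
      have := Complex.norm_exp_ofReal_mul_I (-(x * k))
      push_cast at this ⊢
      exact this
    rw [h7, one_mul]

end Y426.HC
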