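import Mathlib
import Pool.Agent.Results.MP_c14f63_co.OrderOfGrowth
import Pool.Agent.Y426.HC.Kernel
import Pool.Agent.Y426.HC.Window

/-! The first moment of the noise argument, with the sharp kernel. -/

open Finset MeasureTheory

namespace Y426.HC

open Pool.Agent.Results.MP_c14f63_co.OrderOfGrowth (Vert W wt xi flip_ne flip_same flip_flip
  flipPerm xi_sq W_nonneg wt_nonneg wt_mul_xi anti shift shift_flip shiftPerm hasDerivAt_W
  sum_flip_zero)

variable {n : ℕ}

open Pool.Agent.Results.MP_c14f63_co.OrderOfGrowth renaming flip → flp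

theorem noise_l1_gen (ε : Vert n → Fin n → ℝ)
    (X s : Vert n → Vert n → ℝ) (hs : ∀ v y, |s v y| ≤ 1)
    (hinv : ∀ v y i, X v (flp y i) - 1 / 2 * ε (flp y i) i * s v (flp y i)
      = X v y - 1 / 2 * ε y i * s v y) {b : ℝ → ℝ} (hb : Continuous b)
    (hfirst : ∀ t, 0 < t → t < 1 → ∀ y, ∑ K : Vert n, W K t * |∑ i, xi (K i) t * ε y i| ≤ b t) :
    ∑ v, (X v (anti v) - X v v) ≤ 1 / 2 * 2 ^ n * ∫ t in (0 : ℝ)..1, b t := by
  set H : ℝ → ℝ := fun t => ∑ v : Vert n, ∑ K : Vert n, W K t * X v (shift v K) with hH
  -- endpoint values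
  have hH0 : H 0 = ∑ v, X v v := by
    apply Finset.sum_congr rfl
    intro v _
    rw [Finset.sum_eq_single (fun _ => false)]
    · have h1 : W (fun _ : Fin n => false) (0 : ℝ) = 1 := by simp [W, wt]
      have h2 : shift v (fun _ => false) = v := by funext i; simp [shift]
      rw [h1, h2, one_mul]
    · intro K _ hK
      obtain ⟨i, hi⟩ := Function.ne_iff.mp hK
      have h1 : W K (0 : ℝ) = 0 := by
        apply Finset.prod_eq_zero (mem_univ i)
        have : K i = true := by simpa using hi
        simp [wt, this]
      rw [h1, zero_mul]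
    · intro h; exact absurd (mem_univ _) h
  have hH1 : H 1 = ∑ v, X v (anti v) := by
    apply Finset.sum_congr rfl
    intro v _
    rw [Finset.sum_eq_single (fun _ => true)]
    · have h1 : W (fun _ : Fin n => true) (1 : ℝ) = 1 := by simp [W, wt]
      have h2 : shift v (fun _ => true) = anti v := by funext i; simp [shift, anti]
      rw [h1, h2, one_mul]
    · intro K _ hK
      obtain ⟨i, hi⟩ := Function.ne_iff.mp hK
      have h1 : W K (1 : ℝ) = 0 := by
        apply Finset.prod_eq_zero (mem_univ i)
        have : K i = false := by simpa using hi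
        simp [wt, this]
      rw [h1, zero_mul]
    · intro h; exact absurd (mem_univ _) h
  -- continuity
  have hWc : ∀ K : Vert n, Continuous (fun t => W K t) := by
    intro K
    unfold W
    apply continuous_finsetProd
    intro i _
    unfold wt
    cases K i
    · simp only [Bool.false_eq_true, if_false]; exact continuous_const.sub continuous_id
    · simp only [if_true]; exact continuous_id
  have hHc : Continuous H := by
    rw [hH]
    exact continuous_finsetSum _ fun v _ => continuous_finsetSum _ fun K _ =>
      (hWc K).mul continuous_const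
  -- derivative
  set H' : ℝ → ℝ := fun t => ∑ v : Vert n, ∑ K : Vert n,
    W K t * (∑ i, xi (K i) t) * X v (shift v K) with hH'
  have hderiv : ∀ t, 0 < t → t < 1 → HasDerivAt H (H' t) t := by
    intro t h0 h1
    rw [hH, hH']
    apply HasDerivAt.fun_sum
    intro v _
    apply HasDerivAt.fun_sum
    intro K _
    exact (hasDerivAt_W K h0 h1).mul_const _
  have hbound : ∀ t, 0 < t → t < 1 → H' t ≤ 1 / 2 * 2 ^ n * b t := by
    intro t h0 h1
    have step1 : ∀ v : Vert n, ∑ K : Vert n, W K t * (∑ i, xi (K i) t) * X v (shift v K)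
        = ∑ K : Vert n, W K t * (1 / 2 * s v (shift v K)
            * ∑ i, xi (K i) t * ε (shift v K) i) := by
      intro v
      have hz : ∀ i : Fin n, ∑ K : Vert n, W K t * xi (K i) t *
          (X v (shift v K) - 1 / 2 * ε (shift v K) i * s v (shift v K)) = 0 := by
        intro i
        apply sum_flip_zero i h0 h1
        intro K
        rw [shift_flip]
        exact hinv v (shift v K) i
      have hsum : ∑ i : Fin n, ∑ K : Vert n, W K t * xi (K i) t *
          (X v (shift v K) - 1 / 2 * ε (shift v K) i * s v (shift v K)) = 0 :=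
        Finset.sum_eq_zero fun i _ => hz i
      rw [Finset.sum_comm] at hsum
      rw [← sub_eq_zero, ← Finset.sum_sub_distrib, ← hsum]
      apply Finset.sum_congr rfl
      intro K _
      rw [Finset.mul_sum, Finset.mul_sum, Finset.mul_sum, Finset.sum_mul,
        ← Finset.sum_sub_distrib]
      apply Finset.sum_congr rfl
      intro i _
      ring
    have step2 : ∀ v K : Vert n, W K t * (1 / 2 * s v (shift v K)
            * ∑ i, xi (K i) t * ε (shift v K) i)
          ≤ 1 / 2 * (W K t * |∑ i, xi (K i) t * ε (shift v K) i|) := by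
      intro v K
      have hW := W_nonneg K h0.le h1.le
      set a := ∑ i, xi (K i) t * ε (shift v K) i
      have h2 : s v (shift v K) * a ≤ |a| := by
        calc s v (shift v K) * a ≤ |s v (shift v K) * a| := le_abs_self _
          _ = |s v (shift v K)| * |a| := abs_mul _ _
          _ ≤ 1 * |a| := mul_le_mul_of_nonneg_right (hs _ _) (abs_nonneg _)
          _ = |a| := one_mul _
      calc W K t * (1 / 2 * s v (shift v K) * a) = 1 / 2 * (W K t * (s v (shift v K) * a)) := by
            ring
        _ ≤ 1 / 2 * (W K t * |a|) := by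
            apply mul_le_mul_of_nonneg_left _ (by norm_num)
            exact mul_le_mul_of_nonneg_left h2 hW
    calc H' t = ∑ v : Vert n, ∑ K : Vert n, W K t * (1 / 2 * s v (shift v K)
            * ∑ i, xi (K i) t * ε (shift v K) i) := by
          rw [hH']
          exact Finset.sum_congr rfl fun v _ => step1 v
      _ ≤ ∑ v : Vert n, ∑ K : Vert n,
            1 / 2 * (W K t * |∑ i, xi (K i) t * ε (shift v K) i|) :=
          Finset.sum_le_sum fun v _ => Finset.sum_le_sum fun K _ => step2 v K
      _ = ∑ K : Vert n, ∑ v : Vert n,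
            1 / 2 * (W K t * |∑ i, xi (K i) t * ε (shift v K) i|) := Finset.sum_comm
      _ = ∑ K : Vert n, ∑ y : Vert n,
            1 / 2 * (W K t * |∑ i, xi (K i) t * ε y i|) := by
          apply Finset.sum_congr rfl
          intro K _
          exact Equiv.sum_comp (shiftPerm K)
            (fun y => 1 / 2 * (W K t * |∑ i, xi (K i) t * ε y i|))
      _ = ∑ y : Vert n, 1 / 2 * ∑ K : Vert n, W K t * |∑ i, xi (K i) t * ε y i| := by
          rw [Finset.sum_comm]
          apply Finset.sum_congr rfl
          intro y _
          rw [Finset.mul_sum]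
      _ ≤ ∑ y : Vert n, 1 / 2 * b t := by
          apply Finset.sum_le_sum
          intro y _
          apply mul_le_mul_of_nonneg_left _ (by norm_num)
          exact hfirst t h0 h1 y
      _ = 1 / 2 * 2 ^ n * b t := by
          rw [Finset.sum_const, Finset.card_univ]
          simp only [Fintype.card_pi, Fintype.card_bool, Finset.prod_const, Finset.card_univ,
            Fintype.card_fin, nsmul_eq_mul]
          push_cast
          ring
  have hfin := intervalIntegral.sub_le_integral_of_hasDeriv_right_of_le (a := 0) (b := 1)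
    (g := H) (g' := H') (φ := fun t => 1 / 2 * 2 ^ n * b t) zero_le_one hHc.continuousOn
    (fun x hx => (hderiv x hx.1 hx.2).hasDerivWithinAt)
    (Continuous.integrableOn_Icc (by fun_prop))
    (fun x hx => hbound x hx.1 hx.2)
  rw [hH0, hH1, intervalIntegral.integral_const_mul] at hfin
  rw [Finset.sum_sub_distrib]
  exact hfin

/-- The sharp constant. -/
theorem noise_l1 (ε : Vert n → Fin n → ℤ) (hε : ∀ y i, ε y i = 1 ∨ ε y i = -1)
    (X s : Vert n → Vert n → ℝ) (hs : ∀ v y, |s v y| ≤ 1)
    (hinv : ∀ v y i, X v (flp y i) - 1 / 2 * (ε (flp y i) i : ℝ) * s v (flp y i)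
      = X v y - 1 / 2 * (ε y i : ℝ) * s v y) :
    ∑ v, (X v (anti v) - X v v) ≤ Real.sqrt (Real.pi / 2 * n) * 2 ^ n := by
  have hpi := Real.pi_pos
  have hpos : ∀ t x : ℝ, 0 < t → t < 1 → 0 ≤ 1 - 4 * t * (1 - t) * Real.sin (x / 2) ^ 2 := by
    intro t x h0 h1
    have h2 : Real.sin (x / 2) ^ 2 ≤ 1 := Real.sin_sq_le_one _
    have h3 : 4 * t * (1 - t) ≤ 1 := by nlinarith [sq_nonneg (2 * t - 1)]
    have h4 : 0 ≤ 4 * t * (1 - t) := by nlinarith
    nlinarith [sq_nonneg (Real.sin (x / 2))]
  rcases Nat.eq_zero_or_pos n with hn | hn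
  · subst hn
    have : ∀ v : Vert 0, anti v = v := fun v => Subsingleton.elim _ _
    simp [this]
  rcases Nat.even_or_odd' n with ⟨m', hm | hm⟩
  · -- even
    obtain ⟨m, rfl⟩ : ∃ m, m' = m + 1 := ⟨m' - 1, by omega⟩
    have hcpos : (0 : ℝ) < (2 * m + 2) / (2 * m + 3) := by positivity
    set c : ℝ := Real.sqrt ((2 * m + 2) / (2 * m + 3)) with hc
    have hc0 : 0 < c := Real.sqrt_pos.mpr hcpos
    have hc2 : c ^ 2 = (2 * m + 2) / (2 * m + 3) := Real.sq_sqrt hcpos.le
    have key := noise_l1_gen (fun y i => (ε y i : ℝ)) X s hs hinv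
      (b := fun t => 2 * n * (1 / 2 * (c * ker m t + ker (m + 1) t / c)))
      (by have := continuous_ker m; have := continuous_ker (m + 1); fun_prop) (by
        intro t h0 h1 y
        apply first_sharp (ε y) (hε y) h0 h1
        intro i k
        refine le_trans (Pr_le (ε y) (hε y) i k t) ?_
        have e1 : n - 1 = 2 * m + 1 := by omega
        rw [e1]
        have hpt : ∀ x : ℝ, rho t x ^ (2 * m + 1) ≤ 1 / 2 * (c *
            (1 - 4 * t * (1 - t) * Real.sin (x / 2) ^ 2) ^ m
            + (1 - 4 * t * (1 - t) * Real.sin (x / 2) ^ 2) ^ (m + 1) / c) := by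
          intro x
          have h2 := hpos t x h0 h1
          have h3 : rho t x ^ 2 = 1 - 4 * t * (1 - t) * Real.sin (x / 2) ^ 2 := Real.sq_sqrt h2
          have h4 : 0 ≤ rho t x := Real.sqrt_nonneg _
          rw [← h3, ← pow_mul, ← pow_mul]
          have h5 : rho t x ≤ 1 / 2 * (c + rho t x ^ 2 / c) := by
            have h6 : 1 / 2 * (c + rho t x ^ 2 / c) - rho t x = (rho t x - c) ^ 2 / (2 * c) := by
              field_simp
              ring
            have h7 : 0 ≤ (rho t x - c) ^ 2 / (2 * c) := by positivity
            linarith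
          calc rho t x ^ (2 * m + 1) = rho t x ^ (2 * m) * rho t x := pow_succ _ _
            _ ≤ rho t x ^ (2 * m) * (1 / 2 * (c + rho t x ^ 2 / c)) :=
                mul_le_mul_of_nonneg_left h5 (by positivity)
            _ = _ := by ring
        have hint : ∫ x in (0 : ℝ)..(2 * Real.pi), rho t x ^ (2 * m + 1)
            ≤ ∫ x in (0 : ℝ)..(2 * Real.pi), 1 / 2 * (c *
            (1 - 4 * t * (1 - t) * Real.sin (x / 2) ^ 2) ^ m
            + (1 - 4 * t * (1 - t) * Real.sin (x / 2) ^ 2) ^ (m + 1) / c) := by
          apply intervalIntegral.integral_mono_on (by positivity)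
          · apply Continuous.intervalIntegrable
            unfold rho
            fun_prop
          · apply Continuous.intervalIntegrable
            fun_prop
          · intro x _
            exact hpt x
        refine le_trans (mul_le_mul_of_nonneg_left hint (by positivity)) (le_of_eq ?_)
        rw [intervalIntegral.integral_const_mul, intervalIntegral.integral_add,
          intervalIntegral.integral_const_mul, intervalIntegral.integral_div, ker, ker]
        · ring
        · apply Continuous.intervalIntegrable
          fun_prop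
        · apply Continuous.intervalIntegrable
          fun_prop)
    refine le_trans key ?_
    have hi : ∫ t in (0 : ℝ)..1, 2 * (n : ℝ) * (1 / 2 * (c * ker m t + ker (m + 1) t / c))
        = 2 * n * (al m * c) := by
      have c1 := continuous_ker m
      have c2 := continuous_ker (m + 1)
      rw [intervalIntegral.integral_const_mul, intervalIntegral.integral_const_mul,
        intervalIntegral.integral_add, intervalIntegral.integral_const_mul,
        intervalIntegral.integral_div, int_ker, int_ker, al_succ, ← hc2]
      · field_simp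
        ring
      · exact (c1.const_mul c).intervalIntegrable _ _
      · exact (c2.div_const c).intervalIntegrable _ _
    rw [hi]
    have hfin : (n : ℝ) * (al m * c) ≤ Real.sqrt (Real.pi / 2 * n) := by
      apply Real.le_sqrt_of_sq_le
      have h1 := al_sq (m + 1)
      have h2 := Real.Wallis.W_le (m + 1)
      have h3 : al m = al (m + 1) * ((2 * m + 3) / (2 * m + 2)) := by
        rw [al_succ]
        field_simp
      rw [mul_pow, mul_pow, hc2, h3, mul_pow, h1]
      have hnn : (n : ℝ) = 2 * m + 2 := by rw [hm]; push_cast; ring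
      rw [hnn]
      have h4 : ((2 * m + 2 : ℝ)) ^ 2 * (Real.Wallis.W (m + 1) / (2 * ((m + 1 : ℕ) : ℝ) + 1) *
          ((2 * m + 3) / (2 * m + 2)) ^ 2 * ((2 * m + 2) / (2 * m + 3)))
          = (2 * m + 2) * Real.Wallis.W (m + 1) := by
        push_cast
        field_simp
        ring
      rw [h4, mul_comm]
      exact mul_le_mul_of_nonneg_right h2 (by positivity)
    have h2n : (0 : ℝ) < 2 ^ n := by positivity
    calc 1 / 2 * 2 ^ n * (2 * (n : ℝ) * (al m * c)) = (n * (al m * c)) * 2 ^ n := by ring
      _ ≤ Real.sqrt (Real.pi / 2 * n) * 2 ^ n := mul_le_mul_of_nonneg_right hfin h2n.le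
  · -- odd
    set m := m' with hmm
    have key := noise_l1_gen (fun y i => (ε y i : ℝ)) X s hs hinv
      (b := fun t => 2 * n * ker m t)
      (by have := continuous_ker m; fun_prop) (by
        intro t h0 h1 y
        apply first_sharp (ε y) (hε y) h0 h1
        intro i k
        refine le_trans (Pr_le (ε y) (hε y) i k t) ?_
        have e1 : n - 1 = 2 * m := by omega
        rw [e1]
        have hpt : ∀ x : ℝ, rho t x ^ (2 * m)
            = (1 - 4 * t * (1 - t) * Real.sin (x / 2) ^ 2) ^ m := by
          intro x
          have h3 : rho t x ^ 2 = 1 - 4 * t * (1 - t) * Real.sin (x / 2) ^ 2 :=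
            Real.sq_sqrt (hpos t x h0 h1)
          rw [pow_mul, h3]
        simp_rw [hpt]
        exact le_of_eq rfl)
    refine le_trans key ?_
    have hi : ∫ t in (0 : ℝ)..1, 2 * (n : ℝ) * ker m t = 2 * n * al m := by
      rw [intervalIntegral.integral_const_mul, int_ker]
    rw [hi]
    have hfin : (n : ℝ) * al m ≤ Real.sqrt (Real.pi / 2 * n) := by
      apply Real.le_sqrt_of_sq_le
      have h1 := al_sq m
      have h2 := Real.Wallis.W_le m
      have hnn : (n : ℝ) = 2 * m + 1 := by rw [hm]; push_cast; ring
      rw [mul_pow, h1, hnn]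
      have h4 : ((2 * m + 1 : ℝ)) ^ 2 * (Real.Wallis.W m / (2 * m + 1))
          = (2 * m + 1) * Real.Wallis.W m := by
        field_simp
      rw [h4, mul_comm]
      exact mul_le_mul_of_nonneg_right h2 (by positivity)
    have h2n : (0 : ℝ) < 2 ^ n := by positivity
    calc 1 / 2 * 2 ^ n * (2 * (n : ℝ) * al m) = (n * al m) * 2 ^ n := by ring
      _ ≤ Real.sqrt (Real.pi / 2 * n) * 2 ^ n := mul_le_mul_of_nonneg_right hfin h2n.le

end Y426.HC
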