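import Mathlib
import Pool.Agent.Results.MP_c14f63_co.OrderOfGrowth

/-! The second moment of the noise argument, for any number of colours. -/

open Finset

namespace Y426.HC

open Pool.Agent.Results.MP_c14f63_co.OrderOfGrowth

variable {n : ℕ}

open Pool.Agent.Results.MP_c14f63_co.OrderOfGrowth renaming flip → flp

theorem second_moment_gen {t : ℝ} (h0 : 0 < t) (h1 : t < 1) (e : Fin n → ℝ) :
    ∑ K : Vert n, W K t * (∑ i, xi (K i) t * e i) ^ 2 = (∑ i, e i ^ 2) / (t * (1 - t)) := by
  have h2 : ∀ i j : Fin n, ∑ K : Vert n, W K t * xi (K i) t * xi (K j) t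
      = if i = j then 1 / (t * (1 - t)) else 0 := by
    intro i j
    split_ifs with hij
    · subst hij
      have e1 : ∀ K : Vert n, W K t * xi (K i) t * xi (K i) t
          = W K t * (1 / (t * (1 - t)))
            + (1 / t - 1 / (1 - t)) * (W K t * xi (K i) t * 1) := by
        intro K
        rw [mul_assoc, xi_sq _ h0 h1]
        ring
      rw [Finset.sum_congr rfl (fun K _ => e1 K), Finset.sum_add_distrib, ← Finset.sum_mul,
        ← Finset.mul_sum, sum_W, sum_flip_zero i h0 h1 (fun _ => 1) (fun _ => rfl)]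
      ring
    · exact sum_flip_zero i h0 h1 (fun K => xi (K j) t) (fun K => by
        show xi (flip K i j) t = xi (K j) t
        rw [flip_ne K (Ne.symm hij)])
  calc ∑ K : Vert n, W K t * (∑ i, xi (K i) t * e i) ^ 2
      = ∑ K : Vert n, ∑ i, ∑ j, e i * e j * (W K t * xi (K i) t * xi (K j) t) := by
        apply Finset.sum_congr rfl
        intro K _
        rw [pow_two, Finset.sum_mul_sum, Finset.mul_sum]
        apply Finset.sum_congr rfl
        intro i _
        rw [Finset.mul_sum]
        apply Finset.sum_congr rfl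
        intro j _
        ring
    _ = ∑ i, ∑ j, e i * e j * ∑ K : Vert n, W K t * xi (K i) t * xi (K j) t := by
        rw [Finset.sum_comm]
        apply Finset.sum_congr rfl
        intro i _
        rw [Finset.sum_comm]
        apply Finset.sum_congr rfl
        intro j _
        rw [Finset.mul_sum]
    _ = ∑ i : Fin n, e i ^ 2 / (t * (1 - t)) := by
        apply Finset.sum_congr rfl
        intro i _
        rw [Finset.sum_eq_single i]
        · rw [h2, if_pos rfl]; ring
        · intro j _ hj
          rw [h2, if_neg (Ne.symm hj)]; ring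
        · intro h; exact absurd (mem_univ i) h
    _ = (∑ i, e i ^ 2) / (t * (1 - t)) := by
        rw [Finset.sum_div]

/-- Values `m`, `m + 1`: the spread of the squares is at most their sum. -/
theorem spread {r : ℕ} (hr : 1 ≤ r) (D : Fin r → ℕ) (hD : ∀ a b, D a ≤ D b + 1) :
    ∑ a, ((D a : ℝ) ^ 2 - (∑ b, (D b : ℝ) ^ 2) / r) ^ 2 ≤ ∑ a, (D a : ℝ) ^ 2 := by
  have hne : (univ : Finset (Fin r)).Nonempty := ⟨⟨0, hr⟩, mem_univ _⟩
  obtain ⟨a0, -, ha0⟩ := Finset.exists_min_image univ D hne
  set m : ℝ := (D a0 : ℝ) with hm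
  have hg : ∀ a, (D a : ℝ) = m ∨ (D a : ℝ) = m + 1 := by
    intro a
    have h1 := ha0 a (mem_univ a)
    have h2 := hD a a0
    have : D a = D a0 ∨ D a = D a0 + 1 := by omega
    rcases this with h | h
    · left; rw [h]
    · right; rw [h]; push_cast; rfl
  set g : Fin r → ℝ := fun a => (D a : ℝ) - m with hgdef
  have hg2 : ∀ a, g a ^ 2 = g a := by
    intro a
    rcases hg a with h | h
    · simp [hgdef, h]
    · simp [hgdef, h]
  have hsq : ∀ a, (D a : ℝ) ^ 2 = m ^ 2 + (2 * m + 1) * g a := by
    intro a
    have h1 := hg2 a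
    have h2 : (D a : ℝ) = m + g a := by simp [hgdef]
    rw [h2]
    nlinarith
  have hr' : (0 : ℝ) < r := by exact_mod_cast hr
  set G : ℝ := (∑ a, g a) / r with hG
  have hGs : ∑ a, g a = r * G := by rw [hG]; field_simp
  have hs : ∑ a, (D a : ℝ) ^ 2 = r * (m ^ 2 + (2 * m + 1) * G) := by
    rw [Finset.sum_congr rfl fun a _ => hsq a, Finset.sum_add_distrib, ← Finset.mul_sum, hGs,
      Finset.sum_const, Finset.card_univ, Fintype.card_fin, nsmul_eq_mul]
    ring
  have hq : (∑ a, (D a : ℝ) ^ 2) / r = m ^ 2 + (2 * m + 1) * G := by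
    rw [hs]; field_simp
  rw [hq, hs]
  have e1 : ∀ a, ((D a : ℝ) ^ 2 - (m ^ 2 + (2 * m + 1) * G)) ^ 2
      = (2 * m + 1) ^ 2 * (g a - 2 * G * g a + G ^ 2) := by
    intro a
    have h1 := hg2 a
    rw [hsq a]
    have : (m ^ 2 + (2 * m + 1) * g a - (m ^ 2 + (2 * m + 1) * G)) ^ 2
      = (2 * m + 1) ^ 2 * (g a ^ 2 - 2 * G * g a + G ^ 2) := by ring
    rw [this, h1]
  rw [Finset.sum_congr rfl fun a _ => e1 a, ← Finset.mul_sum, Finset.sum_add_distrib,
    Finset.sum_sub_distrib, ← Finset.mul_sum, hGs, Finset.sum_const, Finset.card_univ,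
    Fintype.card_fin, nsmul_eq_mul]
  have key : (2 * m + 1) ^ 2 * (r * G - 2 * G * (r * G) + r * G ^ 2)
      = r * (m ^ 2 + (2 * m + 1) * G) - r * (m - (2 * m + 1) * G) ^ 2 := by ring
  rw [key]
  have := mul_nonneg hr'.le (sq_nonneg (m - (2 * m + 1) * G))
  linarith

/-- The noise argument for the second moment. -/
theorem noise_sq {r : ℕ} (hr : 1 ≤ r) (D : Vert n → Vert n → Fin r → ℕ)
    (c : Vert n → Fin n → Fin r) (hD : ∀ v y a b, D v y a ≤ D v y b + 1)
    (hinv : ∀ v y i, D v (flp y i) (c (flp y i) i) = D v y (c y i))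
    (hz : ∀ v a, D v v a = 0) {T : ℝ} (hT0 : 0 ≤ T) (hT1 : T ≤ 1) :
    Real.sqrt (∑ v : Vert n, ∑ K : Vert n, W K T * ∑ a, (D v (shift v K) a : ℝ) ^ 2)
      ≤ 1 / 2 * Real.sqrt (2 ^ n * (r * (r - 1) * n)) *
        (Real.arcsin (2 * T - 1) + Real.pi / 2) := by
  have hr' : (0 : ℝ) < r := by exact_mod_cast hr
  have hr1 : (1 : ℝ) ≤ r := by exact_mod_cast hr
  set R : Vert n → Vert n → ℝ := fun v y => ∑ a, (D v y a : ℝ) ^ 2 with hR
  have hR0 : ∀ v y, 0 ≤ R v y := fun v y => Finset.sum_nonneg fun a _ => by positivity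
  set H : ℝ → ℝ := fun t => ∑ v : Vert n, ∑ K : Vert n, W K t * R v (shift v K) with hH
  have hH0 : H 0 = 0 := by
    apply Finset.sum_eq_zero
    intro v _
    apply Finset.sum_eq_zero
    intro K _
    by_cases hK : K = fun _ => false
    · subst hK
      have h2 : shift v (fun _ => false) = v := by funext i; simp [shift]
      rw [h2]
      have : R v v = 0 := by simp [hR, hz]
      rw [this, mul_zero]
    · obtain ⟨i, hi⟩ := Function.ne_iff.mp hK
      have h1 : W K (0 : ℝ) = 0 := by
        apply Finset.prod_eq_zero (mem_univ i)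
        have : K i = true := by simpa using hi
        simp [wt, this]
      rw [h1, zero_mul]
  have hWc : ∀ K : Vert n, Continuous (fun t => W K t) := by
    intro K
    unfold W
    apply continuous_finsetProd
    intro i _
    unfold wt
    cases K i
    · simp only [Bool.false_eq_true, if_false]; exact continuous_const.sub continuous_id
    · simp only [if_true]; exact continuous_id
  have hHc : Continuous H := by
    rw [hH]
    exact continuous_finsetSum _ fun v _ => continuous_finsetSum _ fun K _ =>
      (hWc K).mul continuous_const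
  have hHnn : ∀ t, 0 ≤ t → t ≤ 1 → 0 ≤ H t := by
    intro t h0 h1
    exact Finset.sum_nonneg fun v _ => Finset.sum_nonneg fun K _ =>
      mul_nonneg (W_nonneg K h0 h1) (hR0 _ _)
  set H' : ℝ → ℝ := fun t => ∑ v : Vert n, ∑ K : Vert n,
    W K t * (∑ i, xi (K i) t) * R v (shift v K) with hH'
  have hderiv : ∀ t, 0 < t → t < 1 → HasDerivAt H (H' t) t := by
    intro t h0 h1
    rw [hH, hH']
    apply HasDerivAt.fun_sum
    intro v _
    apply HasDerivAt.fun_sum
    intro K _
    exact (hasDerivAt_W K h0 h1).mul_const _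
  set B : ℝ := Real.sqrt (2 ^ n * (r * (r - 1) * n)) with hB
  have hbound : ∀ t, 0 < t → t < 1 →
      H' t ≤ Real.sqrt (H t) * (B / Real.sqrt (t * (1 - t))) := by
    intro t h0 h1
    have ht : 0 < t * (1 - t) := mul_pos h0 (by linarith)
    -- the centred class sums
    set Z : Vert n → Vert n → Fin r → ℝ := fun y K a =>
      ∑ i, xi (K i) t * ((if c y i = a then 1 else 0) - 1 / r) with hZ
    have hVar : ∀ y : Vert n, ∑ K : Vert n, W K t * ∑ a, Z y K a ^ 2
        = n * (1 - 1 / r) / (t * (1 - t)) := by
      intro y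
      have e1 : ∑ K : Vert n, W K t * ∑ a, Z y K a ^ 2
          = ∑ a, ∑ K : Vert n, W K t * Z y K a ^ 2 := by
        rw [Finset.sum_comm]
        apply Finset.sum_congr rfl
        intro K _
        rw [Finset.mul_sum]
      rw [e1]
      have e2 : ∀ a, ∑ K : Vert n, W K t * Z y K a ^ 2
          = (∑ i, ((if c y i = a then 1 else 0) - 1 / (r : ℝ)) ^ 2) / (t * (1 - t)) :=
        fun a => second_moment_gen h0 h1 _
      rw [Finset.sum_congr rfl fun a _ => e2 a, ← Finset.sum_div, Finset.sum_comm]
      congr 1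
      have e3 : ∀ i, ∑ a, ((if c y i = a then (1 : ℝ) else 0) - 1 / (r : ℝ)) ^ 2
          = 1 - 1 / (r : ℝ) := by
        intro i
        have e4 : ∀ a : Fin r, ((if c y i = a then (1 : ℝ) else 0) - 1 / (r : ℝ)) ^ 2
            = (if c y i = a then (1 - 2 / (r : ℝ)) else 0) + 1 / (r : ℝ) ^ 2 := by
          intro a
          split_ifs
          · field_simp; ring
          · field_simp; ring
        rw [Finset.sum_congr rfl fun a _ => e4 a, Finset.sum_add_distrib, Finset.sum_ite_eq,
          if_pos (mem_univ _), Finset.sum_const, Finset.card_univ, Fintype.card_fin, nsmul_eq_mul]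
        field_simp
        ring
      rw [Finset.sum_congr rfl fun i _ => e3 i, Finset.sum_const, Finset.card_univ,
        Fintype.card_fin, nsmul_eq_mul]
    have step1 : ∀ v : Vert n, ∑ K : Vert n, W K t * (∑ i, xi (K i) t) * R v (shift v K)
        = ∑ K : Vert n, W K t * (r * ∑ a, (R v (shift v K) / r - (D v (shift v K) a : ℝ) ^ 2)
            * Z (shift v K) K a) := by
      intro v
      have hz : ∀ i : Fin n, ∑ K : Vert n, W K t * xi (K i) t *
          ((D v (shift v K) (c (shift v K) i) : ℝ) ^ 2) = 0 := by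
        intro i
        apply sum_flip_zero i h0 h1
        intro K
        rw [shift_flip, hinv v (shift v K) i]
      have hsum : ∑ i : Fin n, ∑ K : Vert n, W K t * xi (K i) t *
          ((D v (shift v K) (c (shift v K) i) : ℝ) ^ 2) = 0 :=
        Finset.sum_eq_zero fun i _ => hz i
      rw [Finset.sum_comm] at hsum
      have e0 : ∑ K : Vert n, W K t * (∑ i, xi (K i) t) * R v (shift v K)
          = ∑ K : Vert n, W K t * (∑ i, xi (K i) t) * R v (shift v K)
            - r * ∑ K : Vert n, ∑ i, W K t * xi (K i) t *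
              ((D v (shift v K) (c (shift v K) i) : ℝ) ^ 2) := by rw [hsum]; ring
      rw [e0, Finset.mul_sum, ← Finset.sum_sub_distrib]
      apply Finset.sum_congr rfl
      intro K _
      set y := shift v K
      -- expand the centred sums
      have e5 : ∑ a, (R v y / r - (D v y a : ℝ) ^ 2) * Z y K a
          = ∑ i, xi (K i) t * (R v y / r - (D v y (c y i) : ℝ) ^ 2) := by
        have e6 : ∀ a, (R v y / r - (D v y a : ℝ) ^ 2) * Z y K a
            = ∑ i, (xi (K i) t * (if c y i = a then (R v y / r - (D v y a : ℝ) ^ 2) else 0)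
              - xi (K i) t * (1 / r) * (R v y / r - (D v y a : ℝ) ^ 2)) := by
          intro a
          simp only [hZ]
          rw [Finset.mul_sum]
          apply Finset.sum_congr rfl
          intro i _
          split_ifs <;> ring
        rw [Finset.sum_congr rfl fun a _ => e6 a, Finset.sum_comm]
        apply Finset.sum_congr rfl
        intro i _
        rw [Finset.sum_sub_distrib, ← Finset.mul_sum, Finset.sum_ite_eq, if_pos (mem_univ _),
          ← Finset.mul_sum, Finset.sum_sub_distrib, Finset.sum_const, Finset.card_univ,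
          Fintype.card_fin, nsmul_eq_mul]
        have : (r : ℝ) * (R v y / r) = ∑ a, (D v y a : ℝ) ^ 2 := by
          rw [mul_div_cancel₀ _ hr'.ne']
        rw [this]
        ring
      rw [e5]
      rw [show W K t * (∑ i, xi (K i) t) * R v y = ∑ i, W K t * xi (K i) t * R v y by
        rw [mul_assoc, Finset.sum_mul, Finset.mul_sum]
        exact Finset.sum_congr rfl fun i _ => by ring]
      rw [Finset.mul_sum, Finset.mul_sum, Finset.mul_sum, ← Finset.sum_sub_distrib]
      apply Finset.sum_congr rfl
      intro i _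
      field_simp
    have step2 : ∀ v K : Vert n, ∑ a, (R v (shift v K) / r - (D v (shift v K) a : ℝ) ^ 2)
            * Z (shift v K) K a
          ≤ Real.sqrt (R v (shift v K)) * Real.sqrt (∑ a, Z (shift v K) K a ^ 2) := by
      intro v K
      refine le_trans (Real.sum_mul_le_sqrt_mul_sqrt _ _ _) ?_
      apply mul_le_mul_of_nonneg_right _ (Real.sqrt_nonneg _)
      apply Real.sqrt_le_sqrt
      have h := spread hr (D v (shift v K)) (hD v (shift v K))
      refine le_trans (le_of_eq ?_) h
      apply Finset.sum_congr rfl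
      intro a _
      simp only [hR]
      ring
    have step3 : ∀ v K : Vert n, W K t * (r * ∑ a, (R v (shift v K) / r
            - (D v (shift v K) a : ℝ) ^ 2) * Z (shift v K) K a)
          ≤ r * (Real.sqrt (W K t * R v (shift v K)) *
            Real.sqrt (W K t * ∑ a, Z (shift v K) K a ^ 2)) := by
      intro v K
      have hW := W_nonneg K h0.le h1.le
      have h2 := step2 v K
      rw [Real.sqrt_mul hW, Real.sqrt_mul hW]
      have hWW : Real.sqrt (W K t) * Real.sqrt (W K t) = W K t := Real.mul_self_sqrt hW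
      calc W K t * (r * ∑ a, (R v (shift v K) / r
            - (D v (shift v K) a : ℝ) ^ 2) * Z (shift v K) K a)
          = (r * W K t) * ∑ a, (R v (shift v K) / r
            - (D v (shift v K) a : ℝ) ^ 2) * Z (shift v K) K a := by ring
        _ ≤ (r * W K t) * (Real.sqrt (R v (shift v K)) *
              Real.sqrt (∑ a, Z (shift v K) K a ^ 2)) :=
            mul_le_mul_of_nonneg_left h2 (mul_nonneg hr'.le hW)
        _ = (r * (Real.sqrt (W K t) * Real.sqrt (W K t))) * (Real.sqrt (R v (shift v K)) *
              Real.sqrt (∑ a, Z (shift v K) K a ^ 2)) := by rw [hWW]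
        _ = _ := by ring
    have step4 : H' t ≤ r * ∑ p : Vert n × Vert n, Real.sqrt (W p.2 t * R p.1 (shift p.1 p.2)) *
            Real.sqrt (W p.2 t * ∑ a, Z (shift p.1 p.2) p.2 a ^ 2) := by
      rw [hH']
      simp only
      rw [Finset.sum_congr rfl fun v _ => step1 v, Fintype.sum_prod_type, Finset.mul_sum]
      apply Finset.sum_le_sum
      intro v _
      rw [Finset.mul_sum]
      exact Finset.sum_le_sum fun K _ => step3 v K
    have step5 : ∑ p : Vert n × Vert n, Real.sqrt (W p.2 t * R p.1 (shift p.1 p.2)) *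
            Real.sqrt (W p.2 t * ∑ a, Z (shift p.1 p.2) p.2 a ^ 2)
          ≤ Real.sqrt (H t) * Real.sqrt (2 ^ n * (n * (1 - 1 / r) / (t * (1 - t)))) := by
      refine le_trans (Real.sum_mul_le_sqrt_mul_sqrt _ _ _) ?_
      apply le_of_eq
      congr 2
      · rw [Fintype.sum_prod_type, hH]
        apply Finset.sum_congr rfl
        intro v _
        apply Finset.sum_congr rfl
        intro K _
        rw [Real.sq_sqrt]
        exact mul_nonneg (W_nonneg K h0.le h1.le) (hR0 _ _)
      · have e1 : ∀ p : Vert n × Vert n,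
            Real.sqrt (W p.2 t * ∑ a, Z (shift p.1 p.2) p.2 a ^ 2) ^ 2
              = W p.2 t * ∑ a, Z (shift p.1 p.2) p.2 a ^ 2 := by
          intro p
          rw [Real.sq_sqrt]
          exact mul_nonneg (W_nonneg _ h0.le h1.le)
            (Finset.sum_nonneg fun a _ => sq_nonneg _)
        rw [Finset.sum_congr rfl fun p _ => e1 p, Fintype.sum_prod_type, Finset.sum_comm]
        have e2 : ∀ K : Vert n, ∑ v : Vert n, W K t * ∑ a, Z (shift v K) K a ^ 2
            = ∑ y : Vert n, W K t * ∑ a, Z y K a ^ 2 := by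
          intro K
          exact Equiv.sum_comp (shiftPerm K) (fun y => W K t * ∑ a, Z y K a ^ 2)
        simp only
        rw [Finset.sum_congr rfl fun K _ => e2 K, Finset.sum_comm,
          Finset.sum_congr rfl fun y _ => hVar y, Finset.sum_const, Finset.card_univ]
        simp only [Fintype.card_pi, Fintype.card_bool, Finset.prod_const, Finset.card_univ,
            Fintype.card_fin, nsmul_eq_mul]
        push_cast
        ring
    have step6 : r * Real.sqrt (2 ^ n * (n * (1 - 1 / r) / (t * (1 - t))))
        = B / Real.sqrt (t * (1 - t)) := by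
      rw [hB, ← Real.sqrt_div' _ ht.le]
      have : (r : ℝ) = Real.sqrt (r ^ 2) := (Real.sqrt_sq hr'.le).symm
      nth_rewrite 1 [this]
      rw [← Real.sqrt_mul (by positivity)]
      congr 1
      field_simp
    calc H' t ≤ r * (Real.sqrt (H t) * Real.sqrt (2 ^ n * (n * (1 - 1 / r) / (t * (1 - t))))) :=
          le_trans step4 (mul_le_mul_of_nonneg_left step5 hr'.le)
      _ = Real.sqrt (H t) * (r * Real.sqrt (2 ^ n * (n * (1 - 1 / r) / (t * (1 - t))))) := by ring
      _ = _ := by rw [step6]
  have hBnn : 0 ≤ B := Real.sqrt_nonneg _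
  -- the comparison, for every positive shift
  have main : ∀ ε : ℝ, 0 < ε → Real.sqrt (H T) ≤ Real.sqrt ε +
      1 / 2 * B * (Real.arcsin (2 * T - 1) + Real.pi / 2) := by
    intro ε hε
    set G : ℝ → ℝ := fun t => 1 / 2 * B * Real.arcsin (2 * t - 1) - Real.sqrt (H t + ε) with hG
    have hGd : ∀ t, 0 < t → t < 1 →
        HasDerivAt G (1 / 2 * B * (1 / Real.sqrt (t * (1 - t)))
          - H' t / (2 * Real.sqrt (H t + ε))) t := by
      intro t h0 h1
      have ht : 0 < t * (1 - t) := mul_pos h0 (by linarith)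
      have ha : HasDerivAt (fun t : ℝ => Real.arcsin (2 * t - 1))
          (1 / Real.sqrt (t * (1 - t))) t := by
        have h2 : HasDerivAt (fun t : ℝ => 2 * t - 1) 2 t := by
          simpa using ((hasDerivAt_id t).const_mul 2).sub_const 1
        have h3 := (Real.hasDerivAt_arcsin (x := 2 * t - 1) (by linarith) (by linarith)).comp t h2
        have h4 : 1 / Real.sqrt (1 - (2 * t - 1) ^ 2) * 2 = 1 / Real.sqrt (t * (1 - t)) := by
          rw [show 1 - (2 * t - 1) ^ 2 = 2 ^ 2 * (t * (1 - t)) by ring,
            Real.sqrt_mul (by norm_num), Real.sqrt_sq (by norm_num)]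
          have := Real.sqrt_pos.mpr ht
          field_simp
        rw [h4] at h3
        exact h3
      have hs : HasDerivAt (fun t => Real.sqrt (H t + ε)) (H' t / (2 * Real.sqrt (H t + ε))) t := by
        have h5 := (hderiv t h0 h1).add_const ε
        have h6 : H t + ε ≠ 0 := by
          have := hHnn t h0.le h1.le
          linarith
        exact h5.sqrt h6
      exact (ha.const_mul _).sub hs
    have hmono : MonotoneOn G (Set.Icc 0 1) := by
      apply monotoneOn_of_deriv_nonneg (convex_Icc 0 1)
      · apply Continuous.continuousOn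
        exact (continuous_const.mul (Real.continuous_arcsin.comp
          ((continuous_const.mul continuous_id).sub continuous_const))).sub
          (Real.continuous_sqrt.comp (hHc.add continuous_const))
      · rw [interior_Icc]
        intro t ht
        exact (hGd t ht.1 ht.2).differentiableAt.differentiableWithinAt
      · rw [interior_Icc]
        intro t ht
        rw [(hGd t ht.1 ht.2).deriv]
        have h1 := hbound t ht.1 ht.2
        have hH1 := hHnn t ht.1.le ht.2.le
        have h2 : 0 < Real.sqrt (H t + ε) := Real.sqrt_pos.mpr (by linarith)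
        have h3 : Real.sqrt (H t) ≤ Real.sqrt (H t + ε) := Real.sqrt_le_sqrt (by linarith)
        have h4 : 0 ≤ B / Real.sqrt (t * (1 - t)) := div_nonneg hBnn (Real.sqrt_nonneg _)
        have h5 : H' t / (2 * Real.sqrt (H t + ε)) ≤ 1 / 2 * (B / Real.sqrt (t * (1 - t))) := by
          rw [div_le_iff₀ (by positivity)]
          calc H' t ≤ Real.sqrt (H t) * (B / Real.sqrt (t * (1 - t))) := h1
            _ ≤ Real.sqrt (H t + ε) * (B / Real.sqrt (t * (1 - t))) :=
                mul_le_mul_of_nonneg_right h3 h4
            _ = _ := by ring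
        have e : 1 / 2 * B * (1 / Real.sqrt (t * (1 - t)))
            = 1 / 2 * (B / Real.sqrt (t * (1 - t))) := by ring
        rw [e]
        linarith
    have hfin := hmono (Set.left_mem_Icc.mpr zero_le_one) ⟨hT0, hT1⟩ hT0
    have e0 : G 0 = -(1 / 2 * B * (Real.pi / 2)) - Real.sqrt ε := by
      simp only [hG]
      rw [hH0, show (2 : ℝ) * 0 - 1 = -1 by norm_num, Real.arcsin_neg_one, zero_add]
      ring
    rw [e0] at hfin
    simp only [hG] at hfin
    have h3 : Real.sqrt (H T) ≤ Real.sqrt (H T + ε) := Real.sqrt_le_sqrt (by linarith)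
    linarith
  show Real.sqrt (H T) ≤ _
  apply le_of_forall_pos_le_add
  intro δ hδ
  have := main (δ ^ 2) (by positivity)
  rw [Real.sqrt_sq hδ.le] at this
  linarith

end Y426.HC
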